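import Pool.Agent.Lib.MP_5c318e_ag.S.ODefs

/-! Puiseux sheets of a finite covering over a punctured polydisc, and their orders. -/

set_option autoImplicit false

namespace Pool.Agent.Lib.MP_5c318e_ag

open Metric Set

noncomputable section

variable {ι : Type} [Fintype ι] [DecidableEq ι]

/-- the polydisc without the hyperplane `y i0 = 0` -/
def pb (i0 : ι) (x0 : ι → ℂ) (r : ℝ) : Set (ι → ℂ) := {y ∈ ball x0 r | y i0 ≠ 0}

/-- analytic on the polydisc and not identically zero on the hyperplane -/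
def Un (i0 : ι) (x0 : ι → ℂ) (r : ℝ) (a : (ι → ℂ) → ℂ) : Prop :=
  AnalyticOnNhd ℂ a (ball x0 r) ∧ ∃ q ∈ ball x0 r, q i0 = 0 ∧ a q ≠ 0

/-- all sheets over the punctured polydisc, single valued after `y i0 ↦ y i0 ^ N` -/
structure RD.Pui {S : Type} [TopologicalSpace S] [MeasurableSpace S] (D : RD ι S) (i0 : ι)
    (x0 : ι → ℂ) where
  N : ℕ
  d : ℕ
  r : ℝ
  σ : Fin d → (ι → ℂ) → S
  pos : 0 < N
  rpos : 0 < r
  le_one : r ≤ 1
  zero : x0 i0 = 0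
  cont : ∀ l, ContinuousOn (σ l) (pb i0 x0 r)
  proj : ∀ l, ∀ y ∈ pb i0 x0 r, D.π (σ l y) = pw i0 N y
  onto : ∀ y ∈ pb i0 x0 r, ∀ p, D.π p = pw i0 N y → ∃ l, σ l y = p
  inj : ∀ y ∈ pb i0 x0 r, Function.Injective fun l => σ l y

/-- Puiseux sheets of a chart of a function field; the order in `y i0` along the sheet `l` is the
valuation of the prime divisor `O l` -/
structure Cht.Horn {F : Type} [Field F] [Algebra ℂ F] (c : Cht ι F) (i0 : ι) (x0 : ι → ℂ)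
    extends c.D.Pui i0 x0 where
  ord : Fin d → F → ℤ
  O : Fin d → ValuationSubring F
  div : ∀ l, IsDivisorial ℂ F (O l)
  le : ∀ l φ ψ, φ ≠ 0 → ψ ≠ 0 →
    ((O l).valuation φ ≤ (O l).valuation ψ ↔ ord l ψ ≤ ord l φ)
  rep : ∀ l φ, φ ≠ 0 → ∃ a b, Un i0 x0 r a ∧ Un i0 x0 r b ∧ (φ ∈ c.O → b = 1) ∧
    ∀ y ∈ pb i0 x0 r, b y ≠ 0 → (σ l y).Reg φ ∧ (σ l y).ev φ = y i0 ^ ord l φ * a y / b y

end

end Pool.Agent.Lib.MP_5c318e_ag
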